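import Pool.Agent.L5helper59.DM.Defs

/-!
# D1: zeros of the permanent off another polynomial, near a smooth zero (for helper59)

The reduction is the one of `L5helper5/ZT/RZero.lean`, over the complex numbers.
-/

set_option autoImplicit false

open MvPolynomial Filter Topology

namespace Pool.Agent.L5helper59.DM

/-- `f` does not depend on the variable `i` -/
private def Fr {ι : Type} [DecidableEq ι] (i : ι) (f : MvPolynomial ι ℂ) : Prop :=
  ∀ (x : ι → ℂ) (t : ℂ), eval (Function.update x i t) f = eval x f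

private lemma reduceC {ι : Type} [DecidableEq ι] (i : ι) (P A B : MvPolynomial ι ℂ)
    (hP : P = X i * A + B) (hA : Fr i A) (hB : Fr i B) (Q : MvPolynomial ι ℂ) :
    ∃ (d : ℕ) (R : MvPolynomial ι ℂ), Fr i R ∧ P ∣ A ^ d * Q - R := by
  induction Q using MvPolynomial.induction_on with
  | C a => exact ⟨0, C a, fun x t => by simp, by simp⟩
  | add p q hp hq =>
    obtain ⟨d, R, hR, u, hu⟩ := hp
    obtain ⟨e, S, hS, v, hv⟩ := hq
    refine ⟨d + e, A ^ e * R + A ^ d * S, fun x t => ?_, A ^ e * u + A ^ d * v, ?_⟩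
    · simp only [map_add, map_mul, map_pow, hA x t, hR x t, hS x t]
    · linear_combination A ^ e * hu + A ^ d * hv
  | mul_X p n hp =>
    obtain ⟨d, R, hR, u, hu⟩ := hp
    by_cases hn : n = i
    · subst hn
      refine ⟨d + 1, - (R * B), fun x t => ?_, X n * A * u + R, ?_⟩
      · simp only [map_neg, map_mul, hR x t, hB x t]
      · linear_combination X n * A * hu - R * hP
    · refine ⟨d, R * X n, fun x t => ?_, u * X n, ?_⟩
      · simp only [map_mul, hR x t, eval_X, Function.update_of_ne hn]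
      · linear_combination X n * hu

private lemma denseC {ι : Type} [Fintype ι] (G : MvPolynomial ι ℂ) (hG : G ≠ 0) (y : ι → ℂ) :
    ∃ z : ι → ℂ, ∀ᶠ t in 𝓝[≠] (0 : ℂ), eval (fun i => y i + t * z i) G ≠ 0 := by
  obtain ⟨x₀, hx₀⟩ : ∃ x, eval x G ≠ 0 := by
    by_contra hc
    push Not at hc
    exact hG (MvPolynomial.funext fun x => by rw [hc x, map_zero])
  refine ⟨fun i => x₀ i - y i, ?_⟩
  set g : Polynomial ℂ := aeval (fun i => Polynomial.C (y i) + Polynomial.X *
    Polynomial.C (x₀ i - y i)) G with hg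
  have he : ∀ t : ℂ, g.eval t = eval (fun i => y i + t * (x₀ i - y i)) G := by
    intro t
    have h1 : g.eval t = Polynomial.aeval t g := by
      rw [Polynomial.coe_aeval_eq_eval]
    rw [h1, hg, ← AlgHom.comp_apply, comp_aeval, ← MvPolynomial.coe_aeval_eq_eval]
    simp only [RingHom.coe_coe]
    congr 2
    funext i
    simp
  have hg0 : g ≠ 0 := by
    intro h0
    apply hx₀
    have h1 := he 1
    rw [h0, Polynomial.eval_zero] at h1
    rw [show x₀ = fun i => y i + 1 * (x₀ i - y i) from funext fun i => by ring]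
    exact h1.symm
  have hfin : {t : ℂ | ¬ eval (fun i => y i + t * (x₀ i - y i)) G ≠ 0}.Finite := by
    refine (Polynomial.finite_setOf_isRoot hg0).subset fun t ht => ?_
    have ht' : eval (fun i => y i + t * (x₀ i - y i)) G = 0 := not_not.1 ht
    show g.eval t = 0
    rw [he t, ht']
  exact nhdsNE_le_cofinite 0 hfin

private lemma nearC {ι : Type} [Fintype ι] [DecidableEq ι] (i : ι) (P A B : MvPolynomial ι ℂ)
    (hP : P = X i * A + B) (hA : Fr i A) (hB : Fr i B) (hp : Prime P)
    (Q : MvPolynomial ι ℂ) (h : ¬ P ∣ Q) (y : ι → ℂ) (hy : eval y P = 0) (hAy : eval y A ≠ 0)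
    (ε : ℝ) (hε : 0 < ε) :
    ∃ x : ι → ℂ, (∀ j, ‖x j - y j‖ ≤ ε) ∧ eval x P = 0 ∧ eval x Q ≠ 0 := by
  have hA0 : A ≠ 0 := by
    intro h0
    rw [h0, map_zero] at hAy
    exact hAy rfl
  have key : ∀ x : ι → ℂ, eval x A ≠ 0 →
      eval (Function.update x i (- eval x B / eval x A)) P = 0 := by
    intro x hx
    rw [hP, map_add, map_mul, eval_X, Function.update_self, hA, hB]
    field_simp
    ring
  obtain ⟨d, R, hR, u, hu⟩ := reduceC i P A B hP hA hB Q
  have hR0 : R ≠ 0 := by
    intro h2
    have h3 : P ∣ A ^ d * Q := ⟨u, by rw [← hu, h2, sub_zero]⟩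
    rcases hp.dvd_or_dvd h3 with h4 | h4
    · obtain ⟨w, hw⟩ := hp.dvd_of_dvd_pow h4
      have h5 := congrArg (eval (Function.update y i (- eval y B / eval y A))) hw
      rw [hA, map_mul, key y hAy, zero_mul] at h5
      exact hAy h5
    · exact h h4
  obtain ⟨z, hz⟩ := denseC (A * R) (mul_ne_zero hA0 hR0) y
  -- the points
  have hc0 : Continuous fun t : ℂ => (fun j => y j + t * z j : ι → ℂ) := by fun_prop
  have hcA : Continuous fun t : ℂ => eval (fun j => y j + t * z j) A :=
    (MvPolynomial.continuous_eval A).comp hc0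
  have hcB : Continuous fun t : ℂ => eval (fun j => y j + t * z j) B :=
    (MvPolynomial.continuous_eval B).comp hc0
  have hA00 : eval (fun j => y j + 0 * z j) A = eval y A := by simp
  have hB00 : eval (fun j => y j + 0 * z j) B = eval y B := by simp
  have hcoord : ∀ j, Tendsto (fun t : ℂ => Function.update (fun j => y j + t * z j) i
      (- eval (fun j => y j + t * z j) B / eval (fun j => y j + t * z j) A) j) (𝓝[≠] 0)
      (𝓝 (y j)) := by
    intro j
    refine Tendsto.mono_left ?_ nhdsWithin_le_nhds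
    by_cases hj : j = i
    · subst hj
      simp only [Function.update_self]
      have h1 : Tendsto (fun t : ℂ => - eval (fun j => y j + t * z j) B /
          eval (fun j => y j + t * z j) A) (𝓝 0) (𝓝 (- eval y B / eval y A)) := by
        refine Tendsto.div ?_ ?_ hAy
        · have := (hcB.tendsto 0).neg
          rwa [hB00] at this
        · have := hcA.tendsto 0
          rwa [hA00] at this
      have h2 : - eval y B / eval y A = y j := by
        have h3 := hy
        rw [hP, map_add, map_mul, eval_X] at h3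
        rw [div_eq_iff hAy]
        linear_combination -h3
      rwa [h2] at h1
    · simp only [Function.update_of_ne hj]
      have h1 : Continuous fun t : ℂ => y j + t * z j := by fun_prop
      have := h1.tendsto 0
      simpa using this
  have hnear : ∀ᶠ t in 𝓝[≠] (0 : ℂ), ∀ j, ‖Function.update (fun j => y j + t * z j) i
      (- eval (fun j => y j + t * z j) B / eval (fun j => y j + t * z j) A) j - y j‖ ≤ ε := by
    rw [eventually_all]
    intro j
    have h1 := (Metric.tendsto_nhds.1 (hcoord j)) ε hε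
    filter_upwards [h1] with t ht
    rw [dist_eq_norm] at ht
    exact ht.le
  obtain ⟨t, ht1, ht2⟩ := (hnear.and hz).exists
  rw [map_mul] at ht2
  have hAt := left_ne_zero_of_mul ht2
  have hRt := right_ne_zero_of_mul ht2
  refine ⟨_, ht1, key _ hAt, fun hQ => hRt ?_⟩
  have h4 := congrArg (eval (Function.update (fun j => y j + t * z j) i
      (- eval (fun j => y j + t * z j) B / eval (fun j => y j + t * z j) A))) hu
  rw [map_sub, map_mul, map_mul, hQ, key _ hAt, hR] at h4
  linear_combination -h4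

private lemma pderiv_prod_zero {m : ℕ} (v : Fin m × Fin m) (σ : Equiv.Perm (Fin m))
    (s : Finset (Fin m)) (h : ∀ k ∈ s, (σ k, k) ≠ v) :
    pderiv v (∏ k ∈ s, (X (σ k, k) : MvPolynomial (Fin m × Fin m) ℂ)) = 0 := by
  classical
  induction s using Finset.induction_on with
  | empty => simp
  | insert a s ha ih =>
    rw [Finset.prod_insert ha, pderiv_mul, ih fun k hk => h k (Finset.mem_insert_of_mem hk),
      pderiv_X_of_ne (h a (Finset.mem_insert_self a s))]
    ring

/-- D1 -/
theorem near_zero (m : ℕ) (P q : MvPolynomial (Fin m × Fin m) ℂ)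
    (hP : P = Matrix.permanent (Matrix.of fun i j => X (i, j))) (hp : Prime P)
    (hq : ¬ P ∣ q) (y : Fin m × Fin m → ℂ) (hy : eval y P = 0) (v : Fin m × Fin m)
    (hv : eval y (pderiv v P) ≠ 0) (ε : ℝ) (hε : 0 < ε) :
    ∃ y' : Fin m × Fin m → ℂ, (∀ i, ‖y' i - y i‖ ≤ ε) ∧ eval y' P = 0 ∧ eval y' q ≠ 0 := by
  classical
  obtain ⟨v1, v2⟩ := v
  set A : MvPolynomial (Fin m × Fin m) ℂ :=
    ∑ σ ∈ Finset.univ.filter (fun σ : Equiv.Perm (Fin m) => σ v2 = v1),
      ∏ k ∈ Finset.univ.erase v2, X (σ k, k) with hA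
  set B : MvPolynomial (Fin m × Fin m) ℂ :=
    ∑ σ ∈ Finset.univ.filter (fun σ : Equiv.Perm (Fin m) => ¬ σ v2 = v1), ∏ k, X (σ k, k) with hB
  have hPAB : P = X (v1, v2) * A + B := by
    have h1 : P = ∑ σ : Equiv.Perm (Fin m), ∏ k, X (σ k, k) := hP
    rw [h1, ← Finset.sum_filter_add_sum_filter_not Finset.univ
      (fun σ : Equiv.Perm (Fin m) => σ v2 = v1), hA, Finset.mul_sum]
    congr 1
    refine Finset.sum_congr rfl fun σ hσ => ?_
    rw [← Finset.mul_prod_erase Finset.univ _ (Finset.mem_univ v2), (Finset.mem_filter.1 hσ).2]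
  have hneA : ∀ σ : Equiv.Perm (Fin m), ∀ k ∈ Finset.univ.erase v2, (σ k, k) ≠ (v1, v2) := by
    intro σ k hk he
    exact (Finset.mem_erase.1 hk).1 (Prod.ext_iff.1 he).2
  have hneB : ∀ σ : Equiv.Perm (Fin m), ¬ σ v2 = v1 → ∀ k ∈ (Finset.univ : Finset (Fin m)),
      (σ k, k) ≠ (v1, v2) := by
    intro σ hσ k _ he
    have h1 : k = v2 := (Prod.ext_iff.1 he).2
    have h2 : σ k = v1 := (Prod.ext_iff.1 he).1
    exact hσ (h1 ▸ h2)
  have hdA : pderiv (v1, v2) A = 0 := by
    rw [hA, map_sum]
    exact Finset.sum_eq_zero fun σ _ => pderiv_prod_zero _ _ _ (hneA σ)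
  have hdB : pderiv (v1, v2) B = 0 := by
    rw [hB, map_sum]
    exact Finset.sum_eq_zero fun σ hσ => pderiv_prod_zero _ _ _ (hneB σ (Finset.mem_filter.1 hσ).2)
  have hdP : pderiv (v1, v2) P = A := by
    rw [hPAB, map_add, pderiv_mul, pderiv_X_self, hdA, hdB]
    ring
  rw [hdP] at hv
  refine nearC (v1, v2) P A B hPAB ?_ ?_ hp q hq y hy hv ε hε
  · intro x t
    rw [hA, map_sum, map_sum]
    refine Finset.sum_congr rfl fun σ _ => ?_
    rw [map_prod, map_prod]
    refine Finset.prod_congr rfl fun k hk => ?_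
    rw [eval_X, eval_X, Function.update_of_ne (hneA σ k hk)]
  · intro x t
    rw [hB, map_sum, map_sum]
    refine Finset.sum_congr rfl fun σ hσ => ?_
    rw [map_prod, map_prod]
    refine Finset.prod_congr rfl fun k hk => ?_
    rw [eval_X, eval_X, Function.update_of_ne (hneB σ (Finset.mem_filter.1 hσ).2 k hk)]

end Pool.Agent.L5helper59.DM
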